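import Pool.Agent.Helper91_PP.All

set_option autoImplicit false

namespace Pool.Agent.Results.MP_9863c1_co.LinearFactor

open H91PP

/-- Q1, with `c = 110` and the linear function `f(k) = 5 (k + 1)`; the path itself is short. -/
theorem result : ∀ (V : Type) [Finite V] (G : SimpleGraph V), IsPlanar G →
    ∀ k : ℕ, TreewidthLE G k →
      ∃ (W : Type) (_ : Finite W) (H : SimpleGraph W) (m : ℕ), TreewidthLE H 110 ∧
        Embeds G (StrongProd H (SimpleGraph.pathGraph m)) ∧ m ≤ 5 * (k + 1) :=
  all.1

end Pool.Agent.Results.MP_9863c1_co.LinearFactor
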