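import Pool.Agent.Helper91_PP.All

set_option autoImplicit false

namespace Pool.Agent.Results.MP_9863c1_co.SqrtFactor

open H91PP

/-- Q2, with `c = 110` and `C = 6`; the path itself is short. -/
theorem result : ∀ (V : Type) [Finite V] (G : SimpleGraph V), IsPlanar G →
      ∃ (W : Type) (_ : Finite W) (H : SimpleGraph W) (m : ℕ), TreewidthLE H 110 ∧
        Embeds G (StrongProd H (SimpleGraph.pathGraph m)) ∧
        (m : ℝ) ≤ 6 * Real.sqrt (Nat.card V) :=
  all.2

end Pool.Agent.Results.MP_9863c1_co.SqrtFactor
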